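import Pool.Agent.Helper65.KH.Goals

set_option autoImplicit false

/-!
# Project KH (MP_20ee5e_ag): packet EQ
-/

namespace Pool.Agent.Helper79.KH.EQ

open MvPolynomial Pool.Agent.Helper65.KH

variable {ι : Type} [Fintype ι] [DecidableEq ι] {Λ : Type} [Fintype Λ] [DecidableEq Λ]

/-- Expansion at one place. -/
theorem one (hMO : S_MO) (hRA : S_RA) (hRB : S_RB) (i : ι) (b : Λ → MvPolynomial ι ℚ)
    (s : Finset Λ) : ∀ (H : ι → MvPolynomial ι ℚ), RS H → H i = ∏ l ∈ s, b l → ∀ M' : ℕ, ∃ M : ℕ,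
      ∑ l ∈ s, dq (idl (Function.update H i (b l))) M' ≤ dq (idl H) M := by
  induction s using Finset.induction_on with
  | empty =>
    intro H _ _ M'
    exact ⟨0, by simp⟩
  | insert l s hl ih =>
    intro H hH hi M'
    rw [Finset.prod_insert hl] at hi
    have hd : ∀ j, Function.update H i (∏ l ∈ s, b l) j ∣ H j := by
      intro j
      by_cases hj : j = i
      · subst hj
        rw [Function.update_self, hi]
        exact Dvd.intro_left _ rfl
      · rw [Function.update_of_ne hj]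
    obtain ⟨M1, hM1⟩ := ih (Function.update H i (∏ l ∈ s, b l)) (hRA ι H _ hH hd)
      (Function.update_self _ _ _) M'
    obtain ⟨M, hM⟩ := hRB ι H i (b l) (∏ l ∈ s, b l) hH hi (max M' M1)
    refine ⟨M, ?_⟩
    rw [Finset.sum_insert hl]
    have h1 : dq (idl (Function.update H i (b l))) M' ≤
        dq (idl (Function.update H i (b l))) (max M' M1) :=
      hMO ι _ _ _ _ le_rfl (le_max_left _ _)
    have h2 : dq (idl (Function.update H i (∏ l ∈ s, b l))) M1 ≤
        dq (idl (Function.update H i (∏ l ∈ s, b l))) (max M' M1) :=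
      hMO ι _ _ _ _ le_rfl (le_max_right _ _)
    have h3 : ∑ l ∈ s, dq (idl (Function.update H i (b l))) M' ≤
        dq (idl (Function.update H i (∏ l ∈ s, b l))) M1 := by
      refine le_trans (le_of_eq ?_) hM1
      refine Finset.sum_congr rfl fun x _ => ?_
      rw [Function.update_idem]
    omega

/-- Reindexing. -/
theorem reindex (i : ι) (g : (ι → Λ) → ℕ) :
    ∑ φ : ι → Λ, ∑ l : Λ, g (Function.update φ i l) = Fintype.card Λ * ∑ φ : ι → Λ, g φ := by
  rw [← Fintype.sum_prod_type' (f := fun (φ : ι → Λ) (l : Λ) => g (Function.update φ i l))]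
  have e : ∑ x : (ι → Λ) × Λ, g (Function.update x.1 i x.2) = ∑ x : (ι → Λ) × Λ, g x.1 := by
    refine Finset.sum_nbij' (fun x => (Function.update x.1 i x.2, x.1 i))
      (fun x => (Function.update x.1 i x.2, x.1 i)) ?_ ?_ ?_ ?_ ?_
    · intro x _
      exact Finset.mem_univ _
    · intro x _
      exact Finset.mem_univ _
    · rintro ⟨φ, l⟩ _
      simp
    · rintro ⟨φ, l⟩ _
      simp
    · rintro ⟨φ, l⟩ _
      rfl
  rw [e, Fintype.sum_prod_type' (f := fun (φ : ι → Λ) (_ : Λ) => g φ)]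
  simp only [Finset.sum_const, Finset.card_univ, smul_eq_mul]
  rw [Finset.mul_sum]

/-- The system with the factors `a j (φ j)` at the places in `T`. -/
noncomputable def KT (a : ι → Λ → MvPolynomial ι ℚ) (T : Finset ι) (φ : ι → Λ) (j : ι) :
    MvPolynomial ι ℚ := if j ∈ T then a j (φ j) else ∏ l, a j l

theorem KT_update (a : ι → Λ → MvPolynomial ι ℚ) (T : Finset ι) (φ : ι → Λ) (i : ι)
    (hi : i ∉ T) (l : Λ) :
    Function.update (KT a T φ) i (a i l) = KT a (insert i T) (Function.update φ i l) := by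
  funext j
  by_cases hj : j = i
  · subst hj
    rw [Function.update_self]
    unfold KT
    rw [if_pos (Finset.mem_insert_self _ _), Function.update_self]
  · rw [Function.update_of_ne hj]
    unfold KT
    rw [Function.update_of_ne hj]
    by_cases h : j ∈ T
    · rw [if_pos h, if_pos (Finset.mem_insert_of_mem h)]
    · rw [if_neg h, if_neg (fun h' => (Finset.mem_insert.1 h').elim hj h)]

theorem KT_dvd (a : ι → Λ → MvPolynomial ι ℚ) (T : Finset ι) (φ : ι → Λ) (j : ι) :
    KT a T φ j ∣ ∏ l, a j l := by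
  unfold KT
  split_ifs
  · exact Finset.dvd_prod_of_mem _ (Finset.mem_univ _)
  · exact dvd_rfl

/-- All places in `T`. -/
theorem many (hMO : S_MO) (hRA : S_RA) (hRB : S_RB) (a : ι → Λ → MvPolynomial ι ℚ)
    (hRS : RS (fun j => ∏ l, a j l)) (T : Finset ι) : ∀ M' : ℕ, ∃ M : ℕ,
      Fintype.card Λ ^ T.card * ∑ φ : ι → Λ, dq (idl (KT a T φ)) M' ≤
        ∑ φ : ι → Λ, dq (idl (KT a ∅ φ)) M := by
  induction T using Finset.induction_on with
  | empty =>
    intro M'
    exact ⟨M', by simp⟩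
  | insert i T hi ih =>
    intro M'
    have hK : ∀ φ : ι → Λ, ∃ M : ℕ,
        ∑ l, dq (idl (KT a (insert i T) (Function.update φ i l))) M' ≤ dq (idl (KT a T φ)) M := by
      intro φ
      obtain ⟨M, hM⟩ := one hMO hRA hRB i (a i) Finset.univ (KT a T φ)
        (hRA ι _ _ hRS (KT_dvd a T φ)) (by unfold KT; rw [if_neg hi]) M'
      refine ⟨M, le_trans (le_of_eq ?_) hM⟩
      refine Finset.sum_congr rfl fun l _ => ?_
      rw [KT_update a T φ i hi l]
    choose Mφ hMφ using hK
    obtain ⟨M, hM⟩ := ih (Finset.univ.sup Mφ)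
    refine ⟨M, ?_⟩
    have h1 : Fintype.card Λ * ∑ φ : ι → Λ, dq (idl (KT a (insert i T) φ)) M' ≤
        ∑ φ : ι → Λ, dq (idl (KT a T φ)) (Finset.univ.sup Mφ) := by
      rw [← reindex i (fun φ => dq (idl (KT a (insert i T) φ)) M')]
      refine Finset.sum_le_sum fun φ _ => (hMφ φ).trans ?_
      exact hMO ι _ _ _ _ le_rfl (Finset.le_sup (Finset.mem_univ φ))
    rw [Finset.card_insert_of_notMem hi, pow_succ, mul_assoc]
    exact (Nat.mul_le_mul_left _ h1).trans hM

/-- Packet EQ. -/
theorem t (hMO : S_MO) (hRA : S_RA) (hRB : S_RB) : S_EQ := by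
  intro ι _ _ Λ _ _ a hRS M'
  obtain ⟨M, hM⟩ := many hMO hRA hRB a hRS Finset.univ M'
  refine ⟨M, ?_⟩
  have h1 : ∀ φ : ι → Λ, KT a Finset.univ φ = fun j => a j (φ j) := by
    intro φ
    funext j
    unfold KT
    rw [if_pos (Finset.mem_univ _)]
  have h2 : ∀ φ : ι → Λ, KT a ∅ φ = fun j => ∏ l, a j l := by
    intro φ
    funext j
    unfold KT
    rw [if_neg (Finset.notMem_empty _)]
  simp only [h1, h2, Finset.sum_const, Finset.card_univ, smul_eq_mul] at hM
  rw [Fintype.card_fun] at hM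
  rcases Nat.eq_zero_or_pos (Fintype.card Λ ^ Fintype.card ι) with h0 | hpos
  · have h3 : IsEmpty (ι → Λ) := by
      rw [← Fintype.card_eq_zero_iff, Fintype.card_fun]
      exact h0
    simp
  · exact Nat.le_of_mul_le_mul_left hM hpos

end Pool.Agent.Helper79.KH.EQ
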